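import Pool.Agent.Helper29.TD.Main

set_option autoImplicit false

namespace Pool.Agent.Results.MP_023469_lc.PathThreshold

open Filter Pool.Agent.Helper20.Spectra Pool.Agent.Helper20.OP Pool.Agent.Helper29.TD

/-- The threshold for the length of the paths. `ShortSpectrum w A`: `A` is the spectrum of a
first-order sentence (finite relational vocabulary) such that the paths in its models with `n`
elements have at most `w n` vertices; `E d m` is the tower of height `d` with top `m`.
If `w n` is at least the `d`-fold iterated logarithm of `n`, for some `d` and all large `n`, then all
these spectra are rudimentary if and only if the spectra are exactly the rudimentary sets of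
positive integers. If `w n` is at most the `d`-fold iterated logarithm for every `d` and all large `n`,
then all these spectra are ultimately periodic, and spectra for a constant bound `L`. -/
theorem result (w : ℕ → ℕ) :
    ((∃ d, ∀ᶠ n in atTop, n ≤ E d (w n)) →
      ((∀ A : Set ℕ, ShortSpectrum w A → IsRudimentary A) ↔
        ∀ A : Set ℕ, IsSpectrum A ↔ (IsRudimentary A ∧ 0 ∉ A))) ∧
    ((∀ d, ∀ᶠ n in atTop, E d (w n) ≤ n) →
      ∀ A : Set ℕ, ShortSpectrum w A → UltPeriodic A ∧ ∃ L, ShortSpectrum (fun _ => L) A) :=
  threshold w

end Pool.Agent.Results.MP_023469_lc.PathThreshold
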